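import Pool.Agent.Lib.MP_d610d0_nt.CA.Defs

set_option autoImplicit false

/-!
Project CA: blocks. All sequences are products (Dirichlet convolutions) of boundedly many blocks, i.e.
arithmetic functions supported on a dyadic range.
-/

namespace Pool.Agent.CA

open Finset Filter
open Pool.Agent.MP89da58 (tri primChars)
open Pool.Agent.CH (wJ wL)

/-- The smooth dyadic weight: supported on `[1/2, 2]`, values in `[0,1]`,
`∑_{k ≤ K} Wd (x / 2^k) = 1` for `1 ≤ x ≤ 2^K`. -/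
noncomputable def Wd (x : ℝ) : ℝ := Real.smoothTransition (2 - x) - Real.smoothTransition (2 - 2 * x)

/-- The two shapes of the smooth blocks: `Wd x` and `Wd x * log x`. -/
noncomputable def Vs (i : Fin 2) (x : ℝ) : ℝ := if i = 0 then Wd x else Wd x * Real.log x

/-- Blocks of size `N`: bounded by `1` and supported on `[N/2, 2N]`. -/
structure Bd (f : ArithmeticFunction ℂ) (N : ℝ) : Prop where
  one : 1 ≤ N
  bd : ∀ n, ‖f n‖ ≤ 1
  sp : ∀ n, f n ≠ 0 → N / 2 ≤ (n : ℝ) ∧ (n : ℝ) ≤ 2 * N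

/-- Smooth blocks. -/
structure Sb (f : ArithmeticFunction ℂ) (N : ℝ) : Prop where
  one : 1 ≤ N
  sm : ∃ i : Fin 2, ∀ n : ℕ, 1 ≤ n → f n = ((Vs i (n / N) : ℝ) : ℂ)

/-- Möbius blocks. -/
structure Mb (f : ArithmeticFunction ℂ) (N : ℝ) : Prop where
  one : 1 ≤ N
  mu : ∃ a b : ℕ, N ≤ 2 * ((a : ℝ) + 1) ∧ (b : ℝ) ≤ N ∧
    ∀ n : ℕ, f n = if a < n ∧ n ≤ b then ((ArithmeticFunction.moebius n : ℤ) : ℂ) else 0

/-- Prime blocks. -/
structure Pb (f : ArithmeticFunction ℂ) (N : ℝ) : Prop where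
  one : 1 ≤ N
  pr : ∃ a b : ℕ, N ≤ 2 * ((a : ℝ) + 1) ∧ (b : ℝ) ≤ N ∧
    ∀ n : ℕ, f n = if n.Prime ∧ a < n ∧ n ≤ b then 1 else 0

/-- The sum of an arithmetic function over the window `j`, twisted by `χ`. -/
noncomputable def Wf (F : ArithmeticFunction ℂ) (J j : ℕ) {r : ℕ} (χ : DirichletCharacter ℂ r) : ℂ :=
  ∑ n ∈ Icc 1 (27 * J ^ 3), F n * χ (n : ZMod r) * (wJ J j n : ℂ)

/-- The `m`-fold divisor function. -/
noncomputable def dm (m n : ℕ) : ℝ := (((ArithmeticFunction.zeta ^ m : ArithmeticFunction ℕ) n : ℕ) : ℝ)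

end Pool.Agent.CA
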