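import Pool.Agent.Lib.MP_d610d0_nt.CH.D.Defs

set_option autoImplicit false

/-!
Project CA (primes `p` with `p + 2 = P_5` between ALL consecutive cubes): definitions and interfaces.

As in `CH`: `J` is large, the cubes are `j ^ 3`, `J < j ≤ 2 J`, `L = log J`. Everything is now for EVERY
window `j`, with the level `J ^ (1/2 - ε)` instead of `J ^ (1 - ε)`.
-/

namespace Pool.Agent.CA

open Finset Filter
open scoped ArithmeticFunction.Omega
open Pool.Agent.MP89da58 (tri primChars)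
open Pool.Agent.CH (zJ wJ wL Rough VV Wt dsum thP EE)
open Pool.Agent.CH.V (pz ex)
open Pool.Agent.CH.D (xj kap dp Sf FL FT)

/-! ### The three classes of sequences -/

/-- Large conductors are under control for the sequence `F` in every window. -/
def LCw (F : ℕ → ℕ → ℝ) : Prop := ∀ A : ℕ, ∃ B : ℕ, ∀ᶠ J : ℕ in atTop, ∀ R : ℕ,
  (Real.log J) ^ B ≤ (R : ℝ) → (R : ℝ) ≤ (J : ℝ) ^ (4998 / 10000 : ℝ) → ∀ j ∈ Ioc J (2 * J),
  ∑ p ∈ primChars R, ‖Sf (F J) J j p.2‖ ≤ (R : ℝ) * (J : ℝ) ^ 2 / (Real.log J) ^ A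

/-- Small conductors are under control for the sequence `F` in every window. -/
def SCw (F : ℕ → ℕ → ℝ) : Prop := ∀ A B : ℕ, ∀ᶠ J : ℕ in atTop, ∀ (r : ℕ)
  (χ : DirichletCharacter ℂ r), 2 ≤ r → (r : ℝ) ≤ (Real.log J) ^ B → χ.IsPrimitive →
  ∀ j ∈ Ioc J (2 * J), ‖Sf (F J) J j χ‖ ≤ (J : ℝ) ^ 2 / (Real.log J) ^ A

/-- Every short window can be compared with the long window for the sequence `F`. -/
def CMw (F : ℕ → ℕ → ℝ) : Prop := ∀ A : ℕ, ∃ E0 : ℕ, ∀ E : ℕ, E0 ≤ E → ∀ᶠ J : ℕ in atTop,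
  ∀ j ∈ Ioc J (2 * J), |2 * (J : ℝ) * ∑ n ∈ Icc 1 (27 * J ^ 3), F J n * wJ J j n
    - (Real.log J) ^ E * ∑ n ∈ Icc 1 (27 * J ^ 3), F J n * wL ((Real.log J) ^ E) j n|
    ≤ (J : ℝ) ^ 3 / (Real.log J) ^ A

/-! ### The sequences -/

open Classical in
/-- The number of `k`-tuples of primes, the `i`-th one in `[lo i, hi i]`, with product `n`. -/
noncomputable def bx (k : ℕ) (lo hi : Fin k → ℝ) (n : ℕ) : ℝ :=
  (((Fintype.piFinset (fun i : Fin k => (range (n + 1)).filter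
    (fun p : ℕ => p.Prime ∧ lo i ≤ (p : ℝ) ∧ (p : ℝ) ≤ hi i))).filter
      (fun q => ∏ i, q i = n)).card : ℝ)

/-- Admissible boxes: at least five primes, all of them between `J ^ (1/12)` and `J ^ (33/20)`. -/
structure BoxOK (k : ℕ) (lo hi : ℕ → Fin k → ℝ) : Prop where
  k5 : 5 ≤ k
  lo : ∀ᶠ J : ℕ in atTop, ∀ i, (J : ℝ) ^ (1 / 12 : ℝ) ≤ lo J i
  hi : ∀ᶠ J : ℕ in atTop, ∀ i, hi J i ≤ (J : ℝ) ^ (33 / 20 : ℝ)

/-- The convolution `∑_{e ∣ n} c e * ∑_{d ∣ n/e} θ d`. -/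
noncomputable def cv (c θ : ℕ → ℕ → ℝ) (J n : ℕ) : ℝ :=
  ∑ e ∈ n.divisors, c J e * dsum (θ J) (n / e)

/-- Admissible coefficients for `cv`: bounded `c` on `e ≤ 27 J ^ (27/20)`, `θ` of divisor size on
`d ≤ J ^ (31/50)`. -/
structure TyI (c θ : ℕ → ℕ → ℝ) : Prop where
  c_bd : ∃ K : ℝ, ∀ᶠ J : ℕ in atTop, ∀ e, |c J e| ≤ K
  c_sp : ∀ᶠ J : ℕ in atTop, ∀ e, c J e ≠ 0 → (e : ℝ) ≤ 27 * (J : ℝ) ^ (27 / 20 : ℝ)
  t_bd : ∀ᶠ J : ℕ in atTop, ∀ d, |θ J d| ≤ ((d.divisors.card : ℕ) : ℝ) ^ 2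
  t_sp : ∀ᶠ J : ℕ in atTop, ∀ d, θ J d ≠ 0 → (d : ℝ) ≤ (J : ℝ) ^ (31 / 50 : ℝ)

/-! ### Interfaces between the analytic half and the sieve half -/

/-- Large conductors, the primes. -/
def I_LL : Prop := LCw FL
/-- Small conductors, the primes. -/
def I_SL : Prop := SCw FL
/-- Comparison with the long windows, the primes. -/
def I_CL : Prop := CMw FL
/-- Large conductors, products of at least five primes. -/
def I_LB : Prop := ∀ (k : ℕ) (lo hi : ℕ → Fin k → ℝ), BoxOK k lo hi →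
  LCw (fun J n => bx k (lo J) (hi J) n)
/-- Small conductors, products of at least five primes. -/
def I_SB : Prop := ∀ (k : ℕ) (lo hi : ℕ → Fin k → ℝ), BoxOK k lo hi →
  SCw (fun J n => bx k (lo J) (hi J) n)
/-- Comparison with the long windows, products of at least five primes. -/
def I_CB : Prop := ∀ (k : ℕ) (lo hi : ℕ → Fin k → ℝ), BoxOK k lo hi →
  CMw (fun J n => bx k (lo J) (hi J) n)
/-- Large conductors, the majorant for numbers with a very large prime factor. -/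
def I_LT : Prop := ∀ c θ : ℕ → ℕ → ℝ, TyI c θ → LCw (cv c θ)
/-- Small conductors, the majorant for numbers with a very large prime factor. -/
def I_ST : Prop := ∀ c θ : ℕ → ℕ → ℝ, TyI c θ → SCw (cv c θ)
/-- Comparison with the long windows, the majorant for numbers with a very large prime factor. -/
def I_CT : Prop := ∀ c θ : ℕ → ℕ → ℝ, TyI c θ → CMw (cv c θ)

/-! ### The final statement -/

/-- The primes `p` with `n^3 < p`, `p + 2 < (n+1)^3` such that `p + 2` has at most `r` prime factors,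
all of them larger than `n ^ (3/16)`. -/
def cubeSet (r n : ℕ) : Set ℕ :=
  {p | p.Prime ∧ n ^ 3 < p ∧ p + 2 < (n + 1) ^ 3 ∧ Ω (p + 2) ≤ r ∧
    ∀ q : ℕ, q.Prime → q ∣ p + 2 → n ^ 3 < q ^ 16}

/-- The final statement. -/
def I_final : Prop := ∃ c : ℝ, 0 < c ∧ ∃ n0 : ℕ, ∀ n : ℕ, n0 ≤ n →
  c * (n : ℝ) ^ 2 / (Real.log n) ^ 2 ≤ ((cubeSet 5 n).ncard : ℝ)

end Pool.Agent.CA
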