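import Pool.Agent.Lib.MP_d610d0_nt.CA.LC.Main
import Pool.Agent.Lib.MP_d610d0_nt.CA.SC.Main
import Pool.Agent.Lib.MP_d610d0_nt.CA.SV.Main

set_option autoImplicit false

/-!
Project CA: the final theorem.
-/

namespace Pool.Agent.CA

/-- For every `n ≥ n0` there are at least `c n^2/(log n)^2` primes `p` with `n^3 < p`, `p + 2 < (n+1)^3` such that
`p + 2` has at most five prime factors, all of them larger than `n ^ (3/16)`. -/
theorem final : I_final :=
  SV.main (LC.main_LL SC.main_dec) SC.main_SL SC.main_CL LC.main_LB SC.main_SB SC.main_CB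

end Pool.Agent.CA
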